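import Pool.Agent.H50.IZ.Defs
import Pool.Agent.H50.IX.Baire

/-!
# The class of a majorant is closed for the compact-open topology, and a Baire space
-/

open Complex Set Filter Topology

namespace Pool.Agent.H50.IZ

open Pool.Agent.H50.IX (ext0 ext0_apply)

lemma inW_congr {W : ℂ → ℝ} {f g : ℂ → ℂ} (hf : InW W f)
    (h : ∀ z ∈ Metric.ball (0 : ℂ) 1, g z = f z) : InW W g := by
  refine ⟨hf.diff.congr h, ?_, ?_⟩
  · rw [h 0 (Metric.mem_ball_self one_pos), hf.zero]
  · intro z hz
    have hd : deriv g z = deriv f z := by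
      refine Filter.EventuallyEq.deriv_eq ?_
      filter_upwards [Metric.isOpen_ball.mem_nhds hz] with w hw
      exact h w hw
    rw [hd]
    exact hf.le z hz

lemma mem_WSet_iff {W : ℂ → ℝ} (H : C(Metric.ball (0 : ℂ) 1, ℂ)) :
    H ∈ WSet W ↔ InW W (ext0 H) := by
  constructor
  · rintro ⟨f, hf, hHf⟩
    refine inW_congr hf fun z hz => ?_
    rw [ext0_apply H hz, hHf]
  · intro h
    exact ⟨ext0 H, h, fun z => (ext0_apply H z.2).symm⟩

theorem isClosed_WSet (W : ℂ → ℝ) : IsClosed (WSet W) := by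
  rw [isClosed_iff_clusterPt]
  intro G hG
  rw [ClusterPt] at hG
  set F : Filter C(Metric.ball (0 : ℂ) 1, ℂ) := 𝓝 G ⊓ 𝓟 (WSet W) with hF
  have : F.NeBot := hG
  have hlim : Tendsto (fun H : C(Metric.ball (0 : ℂ) 1, ℂ) => H) F (𝓝 G) :=
    tendsto_id.mono_left inf_le_left
  have hev : ∀ᶠ H in F, InW W (ext0 H) := by
    have h1 : ∀ᶠ H in F, H ∈ WSet W := by
      rw [hF]
      exact Filter.mem_inf_of_right (mem_principal_self _)
    filter_upwards [h1] with H hH
    exact (mem_WSet_iff H).1 hH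
  have h1 := (ContinuousMap.tendsto_iff_forall_isCompact_tendstoUniformlyOn
    (F := fun H : C(Metric.ball (0 : ℂ) 1, ℂ) => H) (p := F) (f := G)).1 hlim
  have h2 : TendstoLocallyUniformlyOn (fun H : C(Metric.ball (0 : ℂ) 1, ℂ) => ext0 H)
      (ext0 G) F (Metric.ball 0 1) := by
    rw [tendstoLocallyUniformlyOn_iff_forall_isCompact Metric.isOpen_ball]
    intro K hKs hK
    have hK' : IsCompact ((↑) ⁻¹' K : Set (Metric.ball (0 : ℂ) 1)) := by
      rw [Subtype.isCompact_iff, Subtype.image_preimage_coe, inter_eq_self_of_subset_right hKs]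
      exact hK
    have h3 := h1 _ hK'
    rw [Metric.tendstoUniformlyOn_iff] at h3 ⊢
    intro ε hε
    filter_upwards [h3 ε hε] with H hH z hz
    rw [ext0_apply G (hKs hz), ext0_apply H (hKs hz)]
    exact hH ⟨z, hKs hz⟩ hz
  have hdiff : ∀ᶠ H in F, DifferentiableOn ℂ (ext0 H) (Metric.ball 0 1) :=
    hev.mono fun H hH => hH.diff
  have h4 := h2.deriv hdiff Metric.isOpen_ball
  rw [mem_WSet_iff]
  refine ⟨h2.differentiableOn hdiff Metric.isOpen_ball, ?_, ?_⟩
  · have h6 := h2.tendsto_at (Metric.mem_ball_self (x := (0 : ℂ)) one_pos)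
    refine tendsto_nhds_unique h6 ((tendsto_const_nhds (x := (0 : ℂ))).congr' ?_)
    filter_upwards [hev] with H hH
    exact hH.zero.symm
  · intro z hz
    exact le_of_tendsto (h4.tendsto_at hz).norm (hev.mono fun H hH => hH.le z hz)

/-- the class of a majorant, with the compact-open topology, is a Baire space -/
theorem baire_WSet (W : ℂ → ℝ) : BaireSpace (WSet W) := by
  have : LocallyCompactSpace (Metric.ball (0 : ℂ) 1) := Metric.isOpen_ball.locallyCompactSpace
  have : SecondCountableTopology (Metric.ball (0 : ℂ) 1) := inferInstance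
  have : SigmaCompactSpace (Metric.ball (0 : ℂ) 1) := inferInstance
  have : TopologicalSpace.IsCompletelyPseudoMetrizableSpace C(Metric.ball (0 : ℂ) 1, ℂ) :=
    inferInstance
  have : TopologicalSpace.IsCompletelyPseudoMetrizableSpace (WSet W) :=
    (isClosed_WSet W).isCompletelyPseudoMetrizableSpace
  infer_instance

end Pool.Agent.H50.IZ
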