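import Pool.Agent.H50.IZ.Defs

/-!
# Density in the class, a constructor
-/

open Complex Set Filter Topology

namespace Pool.Agent.H50.IZ

theorem dense_of {W : ℂ → ℝ} {S : Set (WSet W)}
    (h : ∀ f : ℂ → ℂ, InW W f → ∀ ρ₀ < 1, ∀ ε > 0,
      ∃ F' ∈ S, ∀ z : Metric.ball (0 : ℂ) 1, ‖(z : ℂ)‖ ≤ ρ₀ → ‖F'.1 z - f z‖ ≤ ε) :
    Dense S := by
  intro F
  obtain ⟨f, hf, hFf⟩ := F.2
  have hn : ∀ n : ℕ, (1 - 1 / ((n : ℝ) + 2)) < 1 := fun n => by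
    have : (0 : ℝ) < 1 / ((n : ℝ) + 2) := by positivity
    linarith
  have hn' : ∀ n : ℕ, (0 : ℝ) < 1 / ((n : ℝ) + 1) := fun n => by positivity
  choose G hGS hG using fun n : ℕ => h f hf _ (hn n) (1 / ((n : ℝ) + 1)) (hn' n)
  refine mem_closure_of_tendsto (f := G) (b := atTop) ?_ (Eventually.of_forall hGS)
  rw [tendsto_subtype_rng, ContinuousMap.tendsto_iff_forall_isCompact_tendstoUniformlyOn]
  intro K hK
  rw [Metric.tendstoUniformlyOn_iff]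
  intro ε hε
  obtain ⟨ρ, hρ, hKρ⟩ : ∃ ρ < 1, ∀ z ∈ K, ‖(z : ℂ)‖ ≤ ρ := by
    rcases K.eq_empty_or_nonempty with h | h
    · exact ⟨0, by norm_num, by simp [h]⟩
    · obtain ⟨w, hw, hw2⟩ := hK.exists_isMaxOn h
        (f := fun z : Metric.ball (0 : ℂ) 1 => ‖(z : ℂ)‖)
        (continuous_subtype_val.norm).continuousOn
      exact ⟨‖(w : ℂ)‖, mem_ball_zero_iff.1 w.2, fun z hz => hw2 hz⟩
  have hl1 : Tendsto (fun n : ℕ => 1 / ((n : ℝ) + 1)) atTop (𝓝 0) :=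
    tendsto_one_div_add_atTop_nhds_zero_nat
  obtain ⟨k, hk⟩ := exists_nat_one_div_lt (sub_pos.2 hρ)
  filter_upwards [hl1.eventually (gt_mem_nhds hε), eventually_ge_atTop k] with n hn1 hn2 z hz
  have h5 : ‖(z : ℂ)‖ ≤ 1 - 1 / ((n : ℝ) + 2) := by
    refine (hKρ z hz).trans ?_
    have h0 : (0 : ℝ) ≤ k := Nat.cast_nonneg k
    have h6 : (k : ℝ) ≤ n := by exact_mod_cast hn2
    have h7 : 1 / ((n : ℝ) + 2) ≤ 1 / ((k : ℝ) + 1) :=
      one_div_le_one_div_of_le (by linarith) (by linarith)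
    linarith
  rw [dist_comm, dist_eq_norm, hFf z]
  exact (hG n z h5).trans_lt hn1

end Pool.Agent.H50.IZ
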