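import Pool.Agent.H50.IZ.Dens
import Pool.Agent.H50.IZ.Top
import Pool.Agent.H50.IZ.Open
import Pool.Agent.H50.IZ.Baire

/-! # Generic functions of a critical majorant -/

open Complex Set Filter Topology

namespace Pool.Agent.H50.IZ

open Pool.Agent.H50.IX (NQ NQ.congr NQ.mono)

/-- The functions `F` of the class for which `g` (`g 0 = 0`, `g' = exp F`) is not quasisymmetric
in any neighbourhood of any critical boundary point. -/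
def NonQS (W : ℂ → ℝ) : Set (WSet W) :=
  {F | ∃ g : ℂ → ℂ, g 0 = 0 ∧
    (∀ z : Metric.ball (0 : ℂ) 1, HasDerivAt g (exp (F.1 z)) (z : ℂ)) ∧
    ∀ ξ : ℂ, ‖ξ‖ = 1 → (∀ c < 1, ∀ᶠ z in 𝓝[Metric.ball (0 : ℂ) 1] ξ, c ≤ (1 - ‖z‖ ^ 2) * W z) →
      ∀ δ : ℝ, 0 < δ → ∀ M : ℝ, NQ g ξ δ M}

/-- the element of the class given by `f` -/
def toW {W : ℂ → ℝ} {f : ℂ → ℂ} (hf : InW W f) : WSet W :=
  ⟨⟨fun z => f z, hf.diff.continuousOn.domRestrict⟩, ⟨f, hf, fun _ => rfl⟩⟩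

theorem toW_apply {W : ℂ → ℝ} {f : ℂ → ℂ} (hf : InW W f) (z : Metric.ball (0 : ℂ) 1) :
    (toW hf).1 z = f z := rfl

theorem dense_NSet {W : ℂ → ℝ} {w : ℝ} (hW : Rad W w) {ξ : ℂ} (hξ : ‖ξ‖ = 1) (hcr : Crit W ξ) {δ : ℝ}
    (hδ : 0 < δ) (M : ℝ) : Dense (NSet W ξ δ M) := by
  refine dense_of fun f hf ρ₀ hρ₀ ε hε => ?_
  obtain ⟨f', g', hf', hg0, hg', hclose, hN⟩ := dens hW hf hξ hcr M hδ hε hρ₀
  refine ⟨toW hf', ⟨g', hg0, fun z => ?_, hN⟩, fun z hz => ?_⟩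
  · rw [toW_apply]
    exact hg' z z.2
  · rw [toW_apply]
    exact hclose z hz

theorem generic_of {W : ℂ → ℝ} {w : ℝ} (hW : Rad W w) :
    Dense (NonQS W) ∧ NonQS W ∈ residual (WSet W) := by
  obtain ⟨A, hAs, hAc, hAd⟩ := (TopologicalSpace.IsSeparable.of_separableSpace
    {ξ : ℂ | ‖ξ‖ = 1 ∧ Crit W ξ}).exists_countable_dense_subset
  have hres : (⋂ ξ ∈ A, ⋂ i : ℕ, NSet W ξ (1 / ((i : ℝ) + 1)) i) ∈ residual (WSet W) := by
    rw [countable_bInter_mem hAc]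
    intro ξ hξ
    rw [countable_iInter_mem]
    intro i
    exact residual_of_dense_open (isOpen_NSet _ _ _ _)
      (dense_NSet hW (hAs hξ).1 (hAs hξ).2 (by positivity) _)
  have hsub : (⋂ ξ ∈ A, ⋂ i : ℕ, NSet W ξ (1 / ((i : ℝ) + 1)) i) ⊆ NonQS W := by
    intro F hF
    simp only [mem_iInter] at hF
    obtain ⟨f, hf, hFf⟩ := F.2
    obtain ⟨g, hg0, hgf⟩ := exists_prim0 hf.diff
    have hg : ∀ z : Metric.ball (0 : ℂ) 1, HasDerivAt g (exp (F.1 z)) (z : ℂ) := fun z => by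
      rw [hFf z]
      exact hgf z z.2
    refine ⟨g, hg0, hg, fun ξ hξ hcr δ hδ M => ?_⟩
    obtain ⟨ζ, hζA, hζ⟩ := Metric.mem_closure_iff.1 (hAd ⟨hξ, hcr⟩) (δ / 2) (half_pos hδ)
    rw [dist_eq_norm] at hζ
    obtain ⟨i₁, hi₁⟩ := exists_nat_one_div_lt (half_pos hδ)
    obtain ⟨i₂, hi₂⟩ := exists_nat_gt M
    set i := max i₁ i₂ with hi
    obtain ⟨g', hg0', hg', hN⟩ := hF ζ hζA i
    have huniq := prim0_unique (h := fun z => exp (f z)) hg0 hg0'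
      (fun z hz => by rw [← hFf ⟨z, hz⟩]; exact hg ⟨z, hz⟩)
      (fun z hz => by rw [← hFf ⟨z, hz⟩]; exact hg' ⟨z, hz⟩)
    have hN' : NQ g ζ (1 / ((i : ℝ) + 1)) i := NQ.congr hN huniq
    refine hN'.mono ?_ ?_
    · have e1 : 1 / ((i : ℝ) + 1) ≤ 1 / ((i₁ : ℝ) + 1) := by
        have : (i₁ : ℝ) ≤ i := by exact_mod_cast le_max_left i₁ i₂
        exact one_div_le_one_div_of_le (by positivity) (by linarith)
      rw [norm_sub_rev]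
      linarith
    · have : (i₂ : ℝ) ≤ i := by exact_mod_cast le_max_right i₁ i₂
      linarith
  have hB := baire_WSet W
  exact ⟨(dense_of_mem_residual hres).mono hsub, mem_of_superset hres hsub⟩

theorem generic : ∀ W : ℂ → ℝ, (∃ w > 0, ∀ z ∈ Metric.ball (0 : ℂ) 1, w ≤ W z) →
    (∀ z ∈ Metric.ball (0 : ℂ) 1, ∀ ρ ∈ Icc (0 : ℝ) 1, ρ * W ((ρ : ℂ) * z) ≤ W z) →
    Dense (NonQS W) ∧ NonQS W ∈ residual (WSet W) := by
  rintro W ⟨w, hw, hl⟩ hm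
  exact generic_of ⟨hw, hl, hm⟩

end Pool.Agent.H50.IZ
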